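import Pool.Agent.W2helper9.SD.Stm

/-!
# Project SD, piece GEN
-/

set_option autoImplicit false

open MvPolynomial

namespace Pool.Agent.W2helper19.SD.GEN

noncomputable section

variable {K : Type} [Field K]

/-! ### derivatives along curves -/

/-- chain rule -/
lemma der_aeval {σ : Type} [DecidableEq σ] {R : Type} [CommRing R] [Algebra K R]
    (Y : σ → Polynomial R) (s : Finset σ) (hs : ∀ q ∉ s, Polynomial.derivative (Y q) = 0)
    (p : MvPolynomial σ K) :
    Polynomial.derivative (aeval Y p) =
      ∑ q ∈ s, aeval Y (pderiv q p) * Polynomial.derivative (Y q) := by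
  induction p using MvPolynomial.induction_on with
  | C a =>
    rw [aeval_C, Polynomial.algebraMap_apply, Polynomial.derivative_C]
    simp
  | add p q hp hq =>
    simp only [map_add, hp, hq, add_mul, Finset.sum_add_distrib]
  | mul_X p i hp =>
    rw [map_mul, aeval_X, Polynomial.derivative_mul, hp]
    have h1 : ∀ q, aeval Y (pderiv q (p * X i)) * Polynomial.derivative (Y q) =
        aeval Y (pderiv q p) * Polynomial.derivative (Y q) * Y i +
          (if q = i then aeval Y p * Polynomial.derivative (Y q) else 0) := by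
      intro q
      rw [pderiv_mul, pderiv_X, map_add, map_mul, map_mul, aeval_X]
      by_cases h : q = i
      · subst h
        simp
        ring
      · have : (Pi.single q 1 : σ → MvPolynomial σ K) i = 0 := by
          rw [Pi.single_apply, if_neg (Ne.symm h)]
        rw [this, if_neg h]
        simp
        ring
    rw [Finset.sum_congr rfl fun q _ => h1 q, Finset.sum_add_distrib, ← Finset.sum_mul,
      Finset.sum_ite_eq']
    by_cases hi : i ∈ s
    · rw [if_pos hi]
    · rw [if_neg hi, hs i hi, mul_zero]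

lemma eval_aeval {σ : Type} (Y : σ → Polynomial K) (p : MvPolynomial σ K) (t : K) :
    (aeval Y p).eval t = eval (fun q => (Y q).eval t) p := by
  have h1 : (Polynomial.evalRingHom t).comp (aeval Y : MvPolynomial σ K →ₐ[K] _).toRingHom =
      eval (fun q => (Y q).eval t) := by
    apply MvPolynomial.ringHom_ext
    · intro r
      simp
    · intro j
      simp
  exact congrArg (fun g => g p) h1

/-! ### coefficients of curves of polynomials -/

variable {σ : Type} [Fintype σ] [DecidableEq σ]

/-- the `m`-th coefficient of a curve of polynomials -/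
def cm (m : σ →₀ ℕ) (P : Polynomial (MvPolynomial σ K)) : Polynomial K :=
  ∑ k ∈ Finset.range (P.natDegree + 1), Polynomial.monomial k (coeff m (P.coeff k))

omit [Fintype σ] [DecidableEq σ] in
lemma cm_coeff (m : σ →₀ ℕ) (P : Polynomial (MvPolynomial σ K)) (k : ℕ) :
    (cm m P).coeff k = coeff m (P.coeff k) := by
  unfold cm
  rw [Polynomial.finsetSum_coeff]
  simp only [Polynomial.coeff_monomial]
  rw [Finset.sum_ite_eq']
  split_ifs with h
  · rfl
  · rw [Finset.mem_range, not_lt] at h
    rw [Polynomial.coeff_eq_zero_of_natDegree_lt (by omega), coeff_zero]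

omit [Fintype σ] [DecidableEq σ] in
lemma cm_eval (m : σ →₀ ℕ) (P : Polynomial (MvPolynomial σ K)) (t : K) :
    (cm m P).eval t = coeff m (P.eval (C t)) := by
  unfold cm
  rw [Polynomial.eval_finsetSum, Polynomial.eval_eq_sum_range, coeff_sum]
  refine Finset.sum_congr rfl fun k _ => ?_
  rw [Polynomial.eval_monomial, ← C_pow, mul_comm _ (C _), coeff_C_mul, mul_comm]

omit [Fintype σ] [DecidableEq σ] in
lemma cm_deriv (m : σ →₀ ℕ) (P : Polynomial (MvPolynomial σ K)) :
    Polynomial.derivative (cm m P) = cm m (Polynomial.derivative P) := by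
  ext k
  rw [Polynomial.coeff_derivative, cm_coeff, cm_coeff, Polynomial.coeff_derivative]
  have : ((k : MvPolynomial σ K) + 1) = C ((k : K) + 1) := by
    rw [map_add, map_natCast, map_one]
  rw [this, mul_comm _ (C _), coeff_C_mul, mul_comm]

/-! ### linear substitutions -/

/-- the rows -/
def uu (B : Matrix σ σ K) (l : σ) : MvPolynomial σ K := ∑ m, C (B l m) * X m

/-- linear substitution -/
def lin' (B : Matrix σ σ K) (F : MvPolynomial σ K) : MvPolynomial σ K := bind₁ (uu B) F

/-- the curve `t ↦ lin' (B + t B') F` -/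
def LP (B B' : Matrix σ σ K) (F : MvPolynomial σ K) : Polynomial (MvPolynomial σ K) :=
  aeval (fun l => Polynomial.C (uu B l) + Polynomial.X * Polynomial.C (uu B' l)) F

omit [DecidableEq σ] in
lemma LP_eval (B B' : Matrix σ σ K) (F : MvPolynomial σ K) (t : K) :
    (LP B B' F).eval (C t) = lin' (B + t • B') F := by
  unfold LP lin'
  have h1 : (Polynomial.evalRingHom (C t : MvPolynomial σ K)).comp
      (aeval (fun l => Polynomial.C (uu B l) + Polynomial.X * Polynomial.C (uu B' l)) :
        MvPolynomial σ K →ₐ[K] _).toRingHom =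
      (bind₁ (uu (B + t • B')) : MvPolynomial σ K →ₐ[K] _).toRingHom := by
    apply MvPolynomial.ringHom_ext
    · intro r
      simp only [RingHom.comp_apply, AlgHom.toRingHom_eq_coe, RingHom.coe_coe, aeval_C,
        Polynomial.algebraMap_apply, bind₁_C_right]
      simp [algebraMap_eq]
    · intro j
      simp only [RingHom.comp_apply, AlgHom.toRingHom_eq_coe, RingHom.coe_coe, aeval_X,
        bind₁_X_right]
      simp only [Polynomial.coe_evalRingHom, Polynomial.eval_add, Polynomial.eval_mul,
        Polynomial.eval_C, Polynomial.eval_X, uu, Matrix.add_apply, Matrix.smul_apply, smul_eq_mul,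
        map_add, map_mul]
      rw [Finset.mul_sum, ← Finset.sum_add_distrib]
      refine Finset.sum_congr rfl fun m _ => ?_
      ring
  exact congrArg (fun g => g F) h1

lemma LP_deriv (B B' : Matrix σ σ K) (F : MvPolynomial σ K) :
    Polynomial.derivative (LP B B' F) = ∑ l, LP B B' (pderiv l F) * Polynomial.C (uu B' l) := by
  unfold LP
  rw [der_aeval _ Finset.univ (by simp)]
  refine Finset.sum_congr rfl fun l _ => ?_
  congr 1
  simp

lemma lin'_one (F : MvPolynomial σ K) : lin' 1 F = F := by
  unfold lin'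
  have : uu (1 : Matrix σ σ K) = X := by
    funext l
    unfold uu
    rw [Finset.sum_eq_single l]
    · simp
    · intro m _ hm
      rw [Matrix.one_apply_ne (Ne.symm hm)]
      simp
    · simp
  rw [this]
  exact congrArg (fun g => g F) bind₁_X_left

omit [DecidableEq σ] in
lemma lin'_hom (B : Matrix σ σ K) {F : MvPolynomial σ K} {d : ℕ} (hF : F.IsHomogeneous d) :
    (lin' B F).IsHomogeneous d := by
  have h1 : ∀ l, (uu B l).IsHomogeneous 1 := by
    intro l
    unfold uu
    refine IsHomogeneous.sum _ _ _ fun m _ => ?_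
    have := (isHomogeneous_C σ (B l m)).mul (isHomogeneous_X K m)
    rwa [zero_add] at this
  have h2 := hF.aeval (uu B) h1
  rw [one_mul] at h2
  exact h2

/-! ### determinants -/

lemma det_inf (B B' : Matrix σ σ K) [Infinite K] (t0 : K) (h : (B + t0 • B').det ≠ 0) :
    {t : K | (B + t • B').det ≠ 0}.Infinite := by
  let M : Matrix σ σ (Polynomial K) := fun i j =>
    Polynomial.C (B i j) + Polynomial.X * Polynomial.C (B' i j)
  have hM : ∀ t, M.det.eval t = (B + t • B').det := by
    intro t
    have h1 := RingHom.map_det (Polynomial.evalRingHom t) M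
    rw [Polynomial.coe_evalRingHom] at h1
    rw [h1]
    congr 1
    ext i j
    rw [RingHom.mapMatrix_apply, Matrix.map_apply]
    simp [M]
    ring
  have hne : M.det ≠ 0 := by
    intro h0
    rw [← hM, h0, Polynomial.eval_zero] at h
    exact h rfl
  have hfin : {t : K | M.det.IsRoot t}.Finite := by
    classical
    have := M.det.roots.toFinset.finite_toSet
    refine this.subset ?_
    intro t ht
    simp only [Finset.mem_coe, Multiset.mem_toFinset]
    exact (Polynomial.mem_roots hne).2 ht
  have h2 := hfin.infinite_compl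
  refine h2.mono ?_
  intro t ht h3
  apply ht
  show M.det.IsRoot t
  rw [Polynomial.IsRoot, hM, h3]

lemma poly_zero_of_inf (q : Polynomial K) {S : Set K} (hS : S.Infinite)
    (h : ∀ t ∈ S, q.eval t = 0) : q = 0 :=
  Polynomial.eq_zero_of_infinite_isRoot q (hS.mono fun t ht => h t ht)

/-! ### division -/

lemma div_lemma {M : Type} (D : Finset M) (𝒲 : Set (M → Polynomial K))
    (hspan : ∀ c : M → K, (∀ w ∈ 𝒲, ∑ m ∈ D, c m * (w m).eval 1 = 0) → ∀ m ∈ D, c m = 0) :
    ∀ (n : ℕ) (g : M → Polynomial K), (∀ m ∈ D, (g m).degree < n) →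
      (∀ w ∈ 𝒲, ∑ m ∈ D, g m * w m = 0) → ∀ m ∈ D, g m = 0 := by
  intro n
  induction n with
  | zero =>
    intro g hg _ m hm
    have := hg m hm
    rw [Nat.cast_zero] at this
    exact Polynomial.degree_eq_bot.1 (Nat.WithBot.lt_zero_iff.1 this)
  | succ n ih =>
    intro g hg hw m hm
    have h1 : ∀ m ∈ D, (g m).eval 1 = 0 := by
      apply hspan fun m => (g m).eval 1
      intro w hw'
      have h2 := congrArg (Polynomial.eval 1) (hw w hw')
      rw [Polynomial.eval_finsetSum, Polynomial.eval_zero] at h2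
      rw [← h2]
      refine Finset.sum_congr rfl fun m _ => ?_
      rw [Polynomial.eval_mul]
    have h2 : ∀ m ∈ D, (Polynomial.X - Polynomial.C 1) * (g m /ₘ (Polynomial.X - Polynomial.C 1)) =
        g m := fun m hm => Polynomial.mul_divByMonic_eq_iff_isRoot.2 (h1 m hm)
    have hX : (Polynomial.X - Polynomial.C (1 : K)) ≠ 0 := Polynomial.X_sub_C_ne_zero 1
    have h3 := ih (fun m => g m /ₘ (Polynomial.X - Polynomial.C 1)) (by
      intro m hm
      by_cases h0 : g m /ₘ (Polynomial.X - Polynomial.C 1) = 0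
      · rw [h0, Polynomial.degree_zero]
        exact WithBot.bot_lt_coe n
      · have h4 := hg m hm
        rw [← h2 m hm, Polynomial.degree_mul, Polynomial.degree_X_sub_C,
          Polynomial.degree_eq_natDegree h0] at h4
        rw [Polynomial.degree_eq_natDegree h0]
        have h5 : ((1 + (g m /ₘ (Polynomial.X - Polynomial.C 1)).natDegree : ℕ) : WithBot ℕ) <
            ((n + 1 : ℕ) : WithBot ℕ) := by
          push_cast
          push_cast at h4
          exact h4
        have h6 : 1 + (g m /ₘ (Polynomial.X - Polynomial.C 1)).natDegree < n + 1 := by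
          exact_mod_cast h5
        exact_mod_cast (by omega : (g m /ₘ (Polynomial.X - Polynomial.C 1)).natDegree < n)) (by
      intro w hw'
      have h4 := hw w hw'
      have h5 : (Polynomial.X - Polynomial.C 1) *
          ∑ m ∈ D, (g m /ₘ (Polynomial.X - Polynomial.C 1)) * w m = 0 := by
        rw [← h4, Finset.mul_sum]
        refine Finset.sum_congr rfl fun m hm => ?_
        rw [← mul_assoc, h2 m hm]
      exact (mul_eq_zero.1 h5).resolve_left hX) m hm
    rw [← h2 m hm, h3, mul_zero]

/-! ### tuples -/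

/-- the coefficients of a tuple -/
def co' {N : ℕ} (F : Fin (N + 1) → MvPolynomial (Fin (N + 1)) K) :
    Fin (N + 1) × (Fin (N + 1) →₀ ℕ) → K :=
  fun q => coeff q.2 (F q.1)

/-- the special tuples -/
def TT {N : ℕ} (F0 : MvPolynomial (Fin (N + 1)) K) (B : Matrix (Fin (N + 1)) (Fin (N + 1)) K)
    (a : Fin N → K) (H : Fin N → MvPolynomial (Fin (N + 1)) K) :
    Fin (N + 1) → MvPolynomial (Fin (N + 1)) K :=
  Fin.cons (lin' B F0 + ∑ i, C (a i) * H i) H

/-- the monomials of degree `d` -/
def DD (N d : ℕ) : Finset (Fin (N + 1) →₀ ℕ) := Finset.finsuppAntidiag Finset.univ d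

lemma mem_DD {N d : ℕ} (m : Fin (N + 1) →₀ ℕ) : m ∈ DD N d ↔ ∑ i, m i = d := by
  unfold DD
  rw [Finset.mem_finsuppAntidiag]
  simp

lemma coeff_zero_of_notMem {N d : ℕ} {F : MvPolynomial (Fin (N + 1)) K} (hF : F.IsHomogeneous d)
    {m : Fin (N + 1) →₀ ℕ} (hm : m ∉ DD N d) : coeff m F = 0 := by
  by_contra h
  apply hm
  rw [mem_DD]
  have h1 := hF h
  rw [Finsupp.weight_apply, Finsupp.sum_fintype _ _ (by simp)] at h1
  simpa using h1

/-- the coordinates of the first form -/
def SS (N d : ℕ) : Finset (Fin (N + 1) × (Fin (N + 1) →₀ ℕ)) :=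
  (DD N d).map ⟨fun m => ((0 : Fin (N + 1)), m), fun _ _ h => (Prod.mk.inj h).2⟩

/-- vanishing at the special tuples -/
def Van {N : ℕ} (d : ℕ) (F0 : MvPolynomial (Fin (N + 1)) K)
    (p : MvPolynomial (Fin (N + 1) × (Fin (N + 1) →₀ ℕ)) K) : Prop :=
  ∀ B : Matrix (Fin (N + 1)) (Fin (N + 1)) K, B.det ≠ 0 → ∀ (a : Fin N → K)
    (H : Fin N → MvPolynomial (Fin (N + 1)) K), (∀ i, (H i).IsHomogeneous d) →
    eval (co' (TT F0 B a H)) p = 0

/-- the general curve: the first form is `P + R`, the others are given -/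
lemma orth_gen {N d : ℕ} (p : MvPolynomial (Fin (N + 1) × (Fin (N + 1) →₀ ℕ)) K)
    (Y : Fin (N + 1) × (Fin (N + 1) →₀ ℕ) → Polynomial K) {S : Set K} (hS : S.Infinite)
    (hY : ∀ t ∈ S, eval (fun q => (Y q).eval t) p = 0)
    (hd : ∀ q ∉ SS N d, Polynomial.derivative (Y q) = 0) (t : K) :
    ∑ m ∈ DD N d, eval (fun q => (Y q).eval t) (pderiv ((0 : Fin (N + 1)), m) p) *
      (Polynomial.derivative (Y (0, m))).eval t = 0 := by
  have h0 : aeval Y p = 0 := poly_zero_of_inf _ hS fun t ht => by rw [eval_aeval, hY t ht]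
  have h1 := der_aeval Y (SS N d) hd p
  rw [h0, Polynomial.derivative_zero] at h1
  have h2 := congrArg (Polynomial.eval t) h1
  rw [Polynomial.eval_zero, Polynomial.eval_finsetSum] at h2
  unfold SS at h2
  rw [Finset.sum_map] at h2
  rw [h2]
  refine Finset.sum_congr rfl fun m _ => ?_
  rw [Polynomial.eval_mul, eval_aeval]
  rfl

lemma notMem_SS_zero {N d : ℕ} {m : Fin (N + 1) →₀ ℕ}
    (h : ((0 : Fin (N + 1)), m) ∉ SS N d) : m ∉ DD N d := by
  intro hm
  apply h
  unfold SS
  rw [Finset.mem_map]
  exact ⟨m, hm, rfl⟩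

variable {N d : ℕ} {F0 : MvPolynomial (Fin (N + 1)) K} (hF0 : F0.IsHomogeneous d)
  {p : MvPolynomial (Fin (N + 1) × (Fin (N + 1) →₀ ℕ)) K} (hp : Van d F0 p)

include hp in
lemma orthA [Infinite K] (B : Matrix (Fin (N + 1)) (Fin (N + 1)) K) (hB : B.det ≠ 0)
    (a : Fin N → K) (H : Fin N → MvPolynomial (Fin (N + 1)) K) (hH : ∀ i, (H i).IsHomogeneous d)
    (i : Fin N) :
    ∑ m ∈ DD N d, eval (co' (TT F0 B a H)) (pderiv ((0 : Fin (N + 1)), m) p) * coeff m (H i) = 0 := by
  let Y : Fin (N + 1) × (Fin (N + 1) →₀ ℕ) → Polynomial K := fun q =>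
    (Fin.cons (Polynomial.C (coeff q.2 (lin' B F0 + ∑ l, C (a l) * H l)) +
      Polynomial.X * Polynomial.C (coeff q.2 (H i)))
      (fun k => Polynomial.C (coeff q.2 (H k))) : Fin (N + 1) → Polynomial K) q.1
  have hY : ∀ t, (fun q => (Y q).eval t) = co' (TT F0 B (a + Pi.single i t) H) := by
    intro t
    funext ⟨k, m⟩
    refine Fin.cases ?_ (fun k => ?_) k
    · simp only [Y, co', TT, Fin.cons_zero]
      have h1 : ∑ l, C ((a + Pi.single i t : Fin N → K) l) * H l = ∑ l, C (a l) * H l + C t * H i := by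
        simp only [Pi.add_apply, map_add, add_mul, Finset.sum_add_distrib]
        congr 1
        rw [Finset.sum_eq_single i]
        · rw [Pi.single_eq_same]
        · intro l _ hl
          rw [Pi.single_eq_of_ne hl, map_zero, zero_mul]
        · simp
      rw [h1, ← add_assoc, coeff_add _ (lin' B F0 + ∑ l, C (a l) * H l), coeff_C_mul]
      simp
      ring
    · simp only [Y, co', TT, Fin.cons_succ, Polynomial.eval_C]
  have h1 := orth_gen (d := d) p Y Set.infinite_univ (fun t _ => by
      rw [hY t]
      exact hp B hB _ H hH) (by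
    rintro ⟨k, m⟩
    refine Fin.cases ?_ (fun k => ?_) k
    · intro h
      have h2 := notMem_SS_zero h
      simp only [Y, Fin.cons_zero]
      rw [coeff_zero_of_notMem (hH i) h2]
      simp
    · intro _
      simp only [Y, Fin.cons_succ, Polynomial.derivative_C]) 0
  rw [hY 0] at h1
  have h2 : a + Pi.single i 0 = a := by
    rw [Pi.single_zero, add_zero]
  rw [h2] at h1
  rw [← h1]
  refine Finset.sum_congr rfl fun m _ => ?_
  congr 1
  simp [Y]

lemma cm_zero (hF0 : F0.IsHomogeneous d) [Infinite K] (B B' : Matrix (Fin (N + 1)) (Fin (N + 1)) K)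
    {m : Fin (N + 1) →₀ ℕ} (hm : m ∉ DD N d) : cm m (LP B B' F0) = 0 := by
  apply poly_zero_of_inf _ Set.infinite_univ
  intro t _
  rw [cm_eval, LP_eval]
  exact coeff_zero_of_notMem (lin'_hom _ hF0) hm

include hF0 hp in
lemma orthB [Infinite K] (B : Matrix (Fin (N + 1)) (Fin (N + 1)) K) (hB : B.det ≠ 0)
    (a : Fin N → K) (H : Fin N → MvPolynomial (Fin (N + 1)) K) (hH : ∀ i, (H i).IsHomogeneous d)
    (i j : Fin (N + 1)) :
    ∑ m ∈ DD N d, eval (co' (TT F0 B a H)) (pderiv ((0 : Fin (N + 1)), m) p) *
      coeff m (lin' B (X i * pderiv j F0)) = 0 := by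
  let B' : Matrix (Fin (N + 1)) (Fin (N + 1)) K := fun l m => if l = j then B i m else 0
  have hB' : ∀ l, uu B' l = if l = j then uu B i else 0 := by
    intro l
    unfold uu
    by_cases h : l = j
    · simp [B', h]
    · simp [B', h]
  let R : MvPolynomial (Fin (N + 1)) K := ∑ l, C (a l) * H l
  let Y : Fin (N + 1) × (Fin (N + 1) →₀ ℕ) → Polynomial K := fun q =>
    (Fin.cons (cm q.2 (LP B B' F0) + Polynomial.C (coeff q.2 R))
      (fun k => Polynomial.C (coeff q.2 (H k))) : Fin (N + 1) → Polynomial K) q.1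
  have hY : ∀ t, (fun q => (Y q).eval t) = co' (TT F0 (B + t • B') a H) := by
    intro t
    funext ⟨k, m⟩
    refine Fin.cases ?_ (fun k => ?_) k
    · simp only [Y, co', TT, Fin.cons_zero]
      rw [Polynomial.eval_add, cm_eval, LP_eval, Polynomial.eval_C, coeff_add]
    · simp only [Y, co', TT, Fin.cons_succ, Polynomial.eval_C]
  have hdet : {t : K | (B + t • B').det ≠ 0}.Infinite := det_inf B B' 0 (by simpa using hB)
  have h1 := orth_gen (d := d) p Y hdet (fun t ht => by
      rw [hY t]
      exact hp _ ht _ H hH) (by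
    rintro ⟨k, m⟩
    refine Fin.cases ?_ (fun k => ?_) k
    · intro h
      have h2 := notMem_SS_zero h
      simp only [Y, Fin.cons_zero]
      rw [cm_zero hF0 B B' h2]
      simp
    · intro _
      simp only [Y, Fin.cons_succ, Polynomial.derivative_C]) 0
  rw [hY 0, zero_smul, add_zero] at h1
  rw [← h1]
  refine Finset.sum_congr rfl fun m _ => ?_
  congr 1
  simp only [Y, Fin.cons_zero]
  rw [Polynomial.derivative_add, Polynomial.derivative_C, add_zero, cm_deriv, cm_eval, LP_deriv,
    Polynomial.eval_finsetSum]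
  have h3 : ∀ l, (LP B B' (pderiv l F0) * Polynomial.C (uu B' l)).eval (C 0) =
      if l = j then lin' B (X i * pderiv j F0) else 0 := by
    intro l
    rw [Polynomial.eval_mul, LP_eval, Polynomial.eval_C, zero_smul, add_zero, hB']
    by_cases h : l = j
    · rw [if_pos h, if_pos h, h]
      unfold lin'
      rw [map_mul, bind₁_X_right, mul_comm]
    · rw [if_neg h, if_neg h, mul_zero]
  rw [Finset.sum_congr rfl fun l _ => h3 l, Finset.sum_ite_eq', if_pos (Finset.mem_univ _)]

include hF0 hp in
lemma main_step [Infinite K] (G : Fin N → MvPolynomial (Fin (N + 1)) K)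
    (hG : ∀ i, (G i).IsHomogeneous d)
    (hspan : homogeneousSubmodule (Fin (N + 1)) K d ≤ Submodule.span K
      (Set.range (fun ij : Fin (N + 1) × Fin (N + 1) => X ij.1 * pderiv ij.2 F0) ∪ Set.range G))
    (m : Fin (N + 1) →₀ ℕ) (hm : m ∈ DD N d) : Van d F0 (pderiv ((0 : Fin (N + 1)), m) p) := by
  intro B hB a H hH
  let Y : Fin (N + 1) × (Fin (N + 1) →₀ ℕ) → Polynomial K := fun q =>
    (Fin.cons (cm q.2 (LP B (1 - B) F0) + ∑ l, Polynomial.C (a l) *
        (Polynomial.C (coeff q.2 (H l)) + Polynomial.X * Polynomial.C (coeff q.2 (G l - H l))))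
      (fun k => Polynomial.C (coeff q.2 (H k)) +
        Polynomial.X * Polynomial.C (coeff q.2 (G k - H k))) : Fin (N + 1) → Polynomial K) q.1
  let Ht : K → Fin N → MvPolynomial (Fin (N + 1)) K := fun t l => H l + C t * (G l - H l)
  have hHt : ∀ t i, (Ht t i).IsHomogeneous d := by
    intro t i
    refine (hH i).add ?_
    have := (isHomogeneous_C (Fin (N + 1)) t).mul ((hG i).sub (hH i))
    rwa [zero_add] at this
  have hcH : ∀ (t : K) (m : Fin (N + 1) →₀ ℕ) (l : Fin N), coeff m (Ht t l) =
      (Polynomial.C (coeff m (H l)) + Polynomial.X * Polynomial.C (coeff m (G l - H l))).eval t := by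
    intro t m l
    simp only [Ht]
    rw [coeff_add, coeff_C_mul]
    simp
  have hY : ∀ t, (fun q => (Y q).eval t) = co' (TT F0 (B + t • (1 - B)) a (Ht t)) := by
    intro t
    funext ⟨k, m⟩
    refine Fin.cases ?_ (fun k => ?_) k
    · simp only [Y, co', TT, Fin.cons_zero]
      rw [Polynomial.eval_add, cm_eval, LP_eval, Polynomial.eval_finsetSum, coeff_add, coeff_sum]
      congr 1
      refine Finset.sum_congr rfl fun l _ => ?_
      rw [Polynomial.eval_mul, Polynomial.eval_C, coeff_C_mul, hcH]
    · simp only [Y, co', TT, Fin.cons_succ]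
      rw [hcH]
  have hdet : {t : K | (B + t • (1 - B)).det ≠ 0}.Infinite :=
    det_inf B (1 - B) 0 (by simpa using hB)
  let g : (Fin (N + 1) →₀ ℕ) → Polynomial K := fun m => aeval Y (pderiv ((0 : Fin (N + 1)), m) p)
  have hg : ∀ m t, (g m).eval t =
      eval (co' (TT F0 (B + t • (1 - B)) a (Ht t))) (pderiv ((0 : Fin (N + 1)), m) p) := by
    intro m t
    rw [← hY t]
    exact eval_aeval _ _ _
  let 𝒲 : Set ((Fin (N + 1) →₀ ℕ) → Polynomial K) :=
    Set.range (fun ij : Fin (N + 1) × Fin (N + 1) => fun m =>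
      cm m (LP B (1 - B) (X ij.1 * pderiv ij.2 F0))) ∪
    Set.range (fun i : Fin N => fun m =>
      Polynomial.C (coeff m (H i)) + Polynomial.X * Polynomial.C (coeff m (G i - H i)))
  obtain ⟨n, hn⟩ : ∃ n : ℕ, ∀ m ∈ DD N d, (g m).degree < n := by
    refine ⟨(DD N d).sup (fun m => (g m).natDegree) + 1, fun m hm => ?_⟩
    refine lt_of_le_of_lt Polynomial.degree_le_natDegree ?_
    have : (g m).natDegree ≤ (DD N d).sup (fun m => (g m).natDegree) :=
      Finset.le_sup (f := fun m => (g m).natDegree) hm
    exact_mod_cast Nat.lt_succ_of_le this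
  have hzero := div_lemma (DD N d) 𝒲 (by
    intro c hc m' hm'
    let φ : MvPolynomial (Fin (N + 1)) K →ₗ[K] K :=
      ∑ m ∈ DD N d, c m • MvPolynomial.lcoeff K m
    have hφ : ∀ f, φ f = ∑ m ∈ DD N d, c m * coeff m f := by
      intro f
      simp [φ]
    have hle : Submodule.span K
        (Set.range (fun ij : Fin (N + 1) × Fin (N + 1) => X ij.1 * pderiv ij.2 F0) ∪
          Set.range G) ≤ LinearMap.ker φ := by
      rw [Submodule.span_le]
      rintro f (⟨ij, rfl⟩ | ⟨i, rfl⟩)
      · show φ _ = 0
        rw [hφ]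
        have h1 := hc _ (Or.inl ⟨ij, rfl⟩)
        rw [← h1]
        refine Finset.sum_congr rfl fun m _ => ?_
        show _ = c m * (cm m (LP B (1 - B) (X ij.1 * pderiv ij.2 F0))).eval 1
        rw [cm_eval, LP_eval, one_smul, add_sub_cancel, lin'_one]
      · show φ _ = 0
        rw [hφ]
        have h1 := hc _ (Or.inr ⟨i, rfl⟩)
        rw [← h1]
        refine Finset.sum_congr rfl fun m _ => ?_
        show _ = c m * (Polynomial.C (coeff m (H i)) +
          Polynomial.X * Polynomial.C (coeff m (G i - H i))).eval 1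
        rw [← hcH]
        simp [Ht]
    have h1 : monomial m' (1 : K) ∈ homogeneousSubmodule (Fin (N + 1)) K d := by
      rw [mem_homogeneousSubmodule]
      apply isHomogeneous_monomial
      rw [Finsupp.degree_eq_sum]
      exact (mem_DD m').1 hm'
    have h2 : φ (monomial m' 1) = 0 := hle (hspan h1)
    rw [hφ, Finset.sum_eq_single m'] at h2
    · rw [coeff_monomial, if_pos rfl, mul_one] at h2
      exact h2
    · intro m _ hne
      rw [coeff_monomial, if_neg (Ne.symm hne), mul_zero]
    · intro h
      exact absurd hm' h) n g hn (by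
    rintro w (⟨⟨i, j⟩, rfl⟩ | ⟨i, rfl⟩)
    · apply poly_zero_of_inf _ hdet
      intro t ht
      rw [Polynomial.eval_finsetSum]
      have h1 := orthB hF0 hp (B + t • (1 - B)) ht a (Ht t) (hHt t) i j
      rw [← h1]
      refine Finset.sum_congr rfl fun m _ => ?_
      rw [Polynomial.eval_mul, hg]
      congr 1
      show (cm m (LP B (1 - B) (X i * pderiv j F0))).eval t = _
      rw [cm_eval, LP_eval]
    · apply poly_zero_of_inf _ hdet
      intro t ht
      rw [Polynomial.eval_finsetSum]
      have h1 := orthA hp (B + t • (1 - B)) ht a (Ht t) (hHt t) i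
      rw [← h1]
      refine Finset.sum_congr rfl fun m _ => ?_
      rw [Polynomial.eval_mul, hg, hcH]) m hm
  have h1 := hg m 0
  rw [hzero, Polynomial.eval_zero, zero_smul, add_zero] at h1
  have h2 : Ht 0 = H := by
    funext l
    simp [Ht]
  rw [h2] at h1
  exact h1.symm

theorem gen [CharZero K] (hF0 : F0.IsHomogeneous d) (G : Fin N → MvPolynomial (Fin (N + 1)) K)
    (hG : ∀ i, (G i).IsHomogeneous d)
    (hspan : homogeneousSubmodule (Fin (N + 1)) K d ≤ Submodule.span K
      (Set.range (fun ij : Fin (N + 1) × Fin (N + 1) => X ij.1 * pderiv ij.2 F0) ∪ Set.range G)) :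
    ∀ (n : ℕ) (p : MvPolynomial (Fin (N + 1) × (Fin (N + 1) →₀ ℕ)) K),
      (∀ m ∈ p.support, m.degree < n) → Van d F0 p →
      ∀ F : Fin (N + 1) → MvPolynomial (Fin (N + 1)) K, (∀ i, (F i).IsHomogeneous d) →
        eval (co' F) p = 0 := by
  have : Infinite K := CharZero.infinite K
  intro n
  induction n with
  | zero =>
    intro p hp _ F _
    have : p = 0 := by
      rw [← support_eq_empty, Finset.eq_empty_iff_forall_notMem]
      intro m hm
      exact Nat.not_lt_zero _ (hp m hm)
    rw [this, map_zero]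
  | succ n ih =>
    intro p hpn hp F hF
    -- the derivatives vanish
    have hder : ∀ m ∈ DD N d, ∀ F : Fin (N + 1) → MvPolynomial (Fin (N + 1)) K,
        (∀ i, (F i).IsHomogeneous d) → eval (co' F) (pderiv ((0 : Fin (N + 1)), m) p) = 0 := by
      intro m hm
      apply ih _ _ (main_step hF0 hp G hG hspan m hm)
      intro m' hm'
      rw [mem_support_iff, coeff_pderiv] at hm'
      have h1 : m' + Finsupp.single ((0 : Fin (N + 1)), m) 1 ∈ p.support := by
        rw [mem_support_iff]
        intro h
        rw [h, zero_mul] at hm'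
        exact hm' rfl
      have h2 := hpn _ h1
      rw [map_add, Finsupp.degree_single] at h2
      omega
    let Y : Fin (N + 1) × (Fin (N + 1) →₀ ℕ) → Polynomial K := fun q =>
      (Fin.cons (Polynomial.C (coeff q.2 F0) + Polynomial.X * Polynomial.C (coeff q.2 (F 0 - F0)))
        (fun k => Polynomial.C (coeff q.2 (F k.succ))) : Fin (N + 1) → Polynomial K) q.1
    let Ft : K → Fin (N + 1) → MvPolynomial (Fin (N + 1)) K := fun t =>
      Fin.cons (F0 + C t * (F 0 - F0)) (fun k => F k.succ)
    have hFt : ∀ t i, (Ft t i).IsHomogeneous d := by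
      intro t i
      refine Fin.cases ?_ (fun k => ?_) i
      · simp only [Ft, Fin.cons_zero]
        refine hF0.add ?_
        have := (isHomogeneous_C (Fin (N + 1)) t).mul ((hF 0).sub hF0)
        rwa [zero_add] at this
      · simp only [Ft, Fin.cons_succ]
        exact hF _
    have hY : ∀ t, (fun q => (Y q).eval t) = co' (Ft t) := by
      intro t
      funext ⟨k, m⟩
      refine Fin.cases ?_ (fun k => ?_) k
      · simp only [Y, co', Ft, Fin.cons_zero]
        rw [coeff_add, coeff_C_mul]
        simp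
      · simp only [Y, co', Ft, Fin.cons_succ, Polynomial.eval_C]
    have h1 : Polynomial.derivative (aeval Y p) = 0 := by
      rw [der_aeval Y (SS N d) (by
        rintro ⟨k, m⟩
        refine Fin.cases ?_ (fun k => ?_) k
        · intro h
          have h2 := notMem_SS_zero h
          simp only [Y, Fin.cons_zero]
          rw [coeff_zero_of_notMem ((hF 0).sub hF0) h2]
          simp
        · intro _
          simp only [Y, Fin.cons_succ, Polynomial.derivative_C])]
      refine Finset.sum_eq_zero fun q hq => ?_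
      unfold SS at hq
      rw [Finset.mem_map] at hq
      obtain ⟨m, hm, rfl⟩ := hq
      have h2 : aeval Y (pderiv ((0 : Fin (N + 1)), m) p) = 0 := by
        apply poly_zero_of_inf _ Set.infinite_univ
        intro t _
        rw [eval_aeval, hY t]
        exact hder m hm _ (hFt t)
      show aeval Y (pderiv ((0 : Fin (N + 1)), m) p) * _ = 0
      rw [h2, zero_mul]
    have h2 := Polynomial.derivative_eq_zero.1 h1
    obtain ⟨c, hc⟩ := Polynomial.natDegree_eq_zero.1 h2
    have h3 : (aeval Y p).eval 0 = 0 := by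
      rw [eval_aeval, hY 0]
      have h4 : Ft 0 = TT F0 1 0 (fun k => F k.succ) := by
        simp only [Ft, TT]
        rw [lin'_one]
        simp
      rw [h4]
      exact hp 1 (by simp) 0 _ (fun i => hF _)
    have h4 : (aeval Y p).eval 1 = eval (co' F) p := by
      have h5 : Ft 1 = F := by
        funext i
        refine Fin.cases ?_ (fun k => ?_) i
        · simp [Ft]
        · simp [Ft]
      rw [eval_aeval, hY 1, h5]
    rw [← h4, ← hc, Polynomial.eval_C]
    rw [← hc, Polynomial.eval_C] at h3
    exact h3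

open Pool.Agent.W2helper9.SD in
theorem p_GEN : P_GEN := by
  intro N d F0 G hF0 hG hspan p hp F hF
  refine gen hF0 G hG hspan (p.support.sup (fun m => m.degree) + 1) p
    (fun m hm => Nat.lt_succ_of_le (Finset.le_sup (f := fun m => m.degree) hm)) ?_ F hF
  intro B hB a H hH
  exact hp B hB a H hH

end

end Pool.Agent.W2helper19.SD.GEN
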