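import Pool.Agent.W2helper9.SD.Stm

/-!
# Project SD, piece SPAN
-/

set_option autoImplicit false

open MvPolynomial

namespace Pool.Agent.W2helper19.SD

open Pool.Agent.W2helper9.SD

noncomputable section

lemma cases32 (P : ℕ → ℕ → ℕ → Prop) (h1 : P 2 0 0) (h2 : P 1 1 0) (h3 : P 1 0 1) (h4 : P 0 2 0)
    (h5 : P 0 1 1) (h6 : P 0 0 2) : ∀ a b c, a + b + c = 2 → P a b c := by
  intro a b c habc
  have hc : c = 2 - a - b := by omega
  have ha : a = 0 ∨ a = 1 ∨ a = 2 := by omega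
  have hb : b = 0 ∨ b = 1 ∨ b = 2 := by omega
  rcases ha with e1 | e1 | e1 <;> rcases hb with e2 | e2 | e2 <;> rw [hc, e1, e2] <;>
    first
    | assumption
    | (exfalso; omega)

lemma cases33 (P : ℕ → ℕ → ℕ → Prop) (h1 : P 3 0 0) (h2 : P 2 1 0) (h3 : P 2 0 1) (h4 : P 1 2 0)
    (h5 : P 1 1 1) (h6 : P 1 0 2) (h7 : P 0 3 0) (h8 : P 0 2 1) (h9 : P 0 1 2) (h10 : P 0 0 3) :
    ∀ a b c, a + b + c = 3 → P a b c := by
  intro a b c habc
  have hc : c = 3 - a - b := by omega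
  have ha : a = 0 ∨ a = 1 ∨ a = 2 ∨ a = 3 := by omega
  have hb : b = 0 ∨ b = 1 ∨ b = 2 ∨ b = 3 := by omega
  rcases ha with e1 | e1 | e1 | e1 <;> rcases hb with e2 | e2 | e2 | e2 <;> rw [hc, e1, e2] <;>
    first
    | assumption
    | (exfalso; omega)

lemma cases42 (P : ℕ → ℕ → ℕ → ℕ → Prop) (h1 : P 2 0 0 0) (h2 : P 1 1 0 0) (h3 : P 1 0 1 0)
    (h4 : P 1 0 0 1) (h5 : P 0 2 0 0) (h6 : P 0 1 1 0) (h7 : P 0 1 0 1) (h8 : P 0 0 2 0)
    (h9 : P 0 0 1 1) (h10 : P 0 0 0 2) : ∀ a b c e, a + b + c + e = 2 → P a b c e := by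
  intro a b c e habc
  have he : e = 2 - a - b - c := by omega
  have ha : a = 0 ∨ a = 1 ∨ a = 2 := by omega
  have hb : b = 0 ∨ b = 1 ∨ b = 2 := by omega
  have hc : c = 0 ∨ c = 1 ∨ c = 2 := by omega
  rcases ha with e1 | e1 | e1 <;> rcases hb with e2 | e2 | e2 <;> rcases hc with e3 | e3 | e3 <;>
    rw [he, e1, e2, e3] <;>
    first
    | assumption
    | (exfalso; omega)

variable {K : Type} [Field K] [CharZero K]

omit [CharZero K] in
lemma mem_of_eq {n : ℕ} {S : Submodule K (MvPolynomial (Fin n) K)} {x y : MvPolynomial (Fin n) K}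
    (h : y ∈ S) (e : x = y) : x ∈ S := e ▸ h

omit [CharZero K] in
lemma degree_of_coeff {n d : ℕ} {p : MvPolynomial (Fin n) K} (hp : p.IsHomogeneous d)
    {m : Fin n →₀ ℕ} (hm : m ∈ p.support) : ∑ i, m i = d := by
  have h1 := hp (mem_support_iff.1 hm)
  rw [Finsupp.weight_apply, Finsupp.sum_fintype _ _ (by simp)] at h1
  simpa using h1

omit [CharZero K] in
lemma span3 (d : ℕ) (S : Submodule K (MvPolynomial (Fin 3) K))
    (h : ∀ a b c : ℕ, a + b + c = d → (X 0 ^ a * X 1 ^ b * X 2 ^ c : MvPolynomial (Fin 3) K) ∈ S) :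
    homogeneousSubmodule (Fin 3) K d ≤ S := by
  intro p hp
  rw [mem_homogeneousSubmodule] at hp
  rw [← support_sum_monomial_coeff p]
  refine Submodule.sum_mem _ fun m hm => ?_
  have h1 := degree_of_coeff hp hm
  rw [Fin.sum_univ_three] at h1
  have h2 : monomial m (coeff m p) =
      coeff m p • (X 0 ^ m 0 * X 1 ^ m 1 * X 2 ^ m 2 : MvPolynomial (Fin 3) K) := by
    rw [monomial_eq, Finsupp.prod_fintype _ _ (by simp), Fin.prod_univ_three, smul_eq_C_mul]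
  rw [h2]
  exact S.smul_mem _ (h _ _ _ h1)

omit [CharZero K] in
lemma span4 (d : ℕ) (S : Submodule K (MvPolynomial (Fin 4) K))
    (h : ∀ a b c e : ℕ, a + b + c + e = d →
      (X 0 ^ a * X 1 ^ b * X 2 ^ c * X 3 ^ e : MvPolynomial (Fin 4) K) ∈ S) :
    homogeneousSubmodule (Fin 4) K d ≤ S := by
  intro p hp
  rw [mem_homogeneousSubmodule] at hp
  rw [← support_sum_monomial_coeff p]
  refine Submodule.sum_mem _ fun m hm => ?_
  have h1 := degree_of_coeff hp hm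
  rw [Fin.sum_univ_four] at h1
  have h2 : monomial m (coeff m p) =
      coeff m p • (X 0 ^ m 0 * X 1 ^ m 1 * X 2 ^ m 2 * X 3 ^ m 3 : MvPolynomial (Fin 4) K) := by
    rw [monomial_eq, Finsupp.prod_fintype _ _ (by simp), Fin.prod_univ_four, smul_eq_C_mul]
  rw [h2]
  exact S.smul_mem _ (h _ _ _ _ h1)

omit [CharZero K] in
theorem span22 : (homogeneousSubmodule (Fin 3) K 2 ≤ Submodule.span K
    (Set.range (fun ij : Fin 3 × Fin 3 => X ij.1 * pderiv ij.2 (X 0 * X 1)) ∪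
      Set.range ![X 2 ^ 2, 0])) := by
  obtain ⟨S, hS⟩ : ∃ S, S = Submodule.span K
    (Set.range (fun ij : Fin 3 × Fin 3 => X ij.1 * pderiv ij.2 (X 0 * X 1 : MvPolynomial (Fin 3) K)) ∪
      Set.range ![X 2 ^ 2, 0]) :=
    ⟨_, rfl⟩
  rw [← hS]
  have hF : ∀ i j : Fin 3, (X i * pderiv j (X 0 * X 1) : MvPolynomial (Fin 3) K) ∈ S :=
    fun i j => hS ▸ Submodule.subset_span (Or.inl ⟨(i, j), rfl⟩)
  have hG : (X 2 ^ 2 : MvPolynomial (Fin 3) K) ∈ S :=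
    hS ▸ Submodule.subset_span (Or.inr ⟨0, rfl⟩)
  have d0 : pderiv 0 (X 0 * X 1 : MvPolynomial (Fin 3) K) = X 1 := by
    simp [pderiv_X]
  have d1 : pderiv 1 (X 0 * X 1 : MvPolynomial (Fin 3) K) = X 0 := by
    simp [pderiv_X]
  have a1 : ∀ i : Fin 3, (X i * X 1 : MvPolynomial (Fin 3) K) ∈ S := by
    intro i
    have := hF i 0
    rwa [d0] at this
  have a0 : ∀ i : Fin 3, (X i * X 0 : MvPolynomial (Fin 3) K) ∈ S := by
    intro i
    have := hF i 1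
    rwa [d1] at this
  apply span3
  refine cases32 (fun a b c => _) ?_ ?_ ?_ ?_ ?_ ?_
  · exact mem_of_eq (a0 0) (by ring)
  · exact mem_of_eq (a1 0) (by ring)
  · exact mem_of_eq (a0 2) (by ring)
  · exact mem_of_eq (a1 1) (by ring)
  · exact mem_of_eq (a1 2) (by ring)
  · exact mem_of_eq (hG) (by ring)

theorem span23 : (homogeneousSubmodule (Fin 3) K 3 ≤ Submodule.span K
    (Set.range (fun ij : Fin 3 × Fin 3 => X ij.1 * pderiv ij.2 (X 1 * (X 0 * X 2 - X 1 ^ 2))) ∪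
      Set.range ![X 0 ^ 3, X 2 ^ 3])) := by
  obtain ⟨S, hS⟩ : ∃ S, S = Submodule.span K
    (Set.range (fun ij : Fin 3 × Fin 3 => X ij.1 *
        pderiv ij.2 (X 1 * (X 0 * X 2 - X 1 ^ 2) : MvPolynomial (Fin 3) K)) ∪
      Set.range ![X 0 ^ 3, X 2 ^ 3]) :=
    ⟨_, rfl⟩
  rw [← hS]
  have hF : ∀ i j : Fin 3,
      (X i * pderiv j (X 1 * (X 0 * X 2 - X 1 ^ 2)) : MvPolynomial (Fin 3) K) ∈ S :=
    fun i j => hS ▸ Submodule.subset_span (Or.inl ⟨(i, j), rfl⟩)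
  have hG0 : (X 0 ^ 3 : MvPolynomial (Fin 3) K) ∈ S :=
    hS ▸ Submodule.subset_span (Or.inr ⟨0, rfl⟩)
  have hG2 : (X 2 ^ 3 : MvPolynomial (Fin 3) K) ∈ S :=
    hS ▸ Submodule.subset_span (Or.inr ⟨1, rfl⟩)
  have d0 : pderiv 0 (X 1 * (X 0 * X 2 - X 1 ^ 2) : MvPolynomial (Fin 3) K) = X 1 * X 2 := by
    simp [pderiv_X, Derivation.leibniz_pow]
  have d1 : pderiv 1 (X 1 * (X 0 * X 2 - X 1 ^ 2) : MvPolynomial (Fin 3) K) =
      X 0 * X 2 - 3 * X 1 ^ 2 := by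
    simp [pderiv_X, Derivation.leibniz_pow]
    ring
  have d2 : pderiv 2 (X 1 * (X 0 * X 2 - X 1 ^ 2) : MvPolynomial (Fin 3) K) = X 0 * X 1 := by
    simp [pderiv_X, Derivation.leibniz_pow]
    ring
  have a0 : ∀ i : Fin 3, (X i * (X 1 * X 2) : MvPolynomial (Fin 3) K) ∈ S := by
    intro i
    have := hF i 0
    rwa [d0] at this
  have a1 : ∀ i : Fin 3, (X i * (X 0 * X 2 - 3 * X 1 ^ 2) : MvPolynomial (Fin 3) K) ∈ S := by
    intro i
    have := hF i 1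
    rwa [d1] at this
  have a2 : ∀ i : Fin 3, (X i * (X 0 * X 1) : MvPolynomial (Fin 3) K) ∈ S := by
    intro i
    have := hF i 2
    rwa [d2] at this
  have h3 : (3 : MvPolynomial (Fin 3) K) = C (3 : K) := by
    rw [map_ofNat]
  have b1 : (X 0 ^ 2 * X 2 : MvPolynomial (Fin 3) K) ∈ S := by
    have := S.add_mem (a1 0) (S.smul_mem (3 : K) (a2 1))
    convert this using 1
    rw [smul_eq_C_mul, ← h3]
    ring
  have b2 : (X 0 * X 2 ^ 2 : MvPolynomial (Fin 3) K) ∈ S := by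
    have := S.add_mem (a1 2) (S.smul_mem (3 : K) (a0 1))
    convert this using 1
    rw [smul_eq_C_mul, ← h3]
    ring
  have b3 : (X 1 ^ 3 : MvPolynomial (Fin 3) K) ∈ S := by
    have := S.smul_mem ((3 : K)⁻¹) (S.sub_mem (a0 0) (a1 1))
    convert this using 1
    have h4 : (X 0 * (X 1 * X 2) - X 1 * (X 0 * X 2 - 3 * X 1 ^ 2) : MvPolynomial (Fin 3) K) =
        C (3 : K) * X 1 ^ 3 := by
      rw [← h3]
      ring
    rw [h4, smul_eq_C_mul, ← mul_assoc, ← map_mul, inv_mul_cancel₀ (by norm_num), map_one,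
      one_mul]
  apply span3
  refine cases33 (fun a b c => _) ?_ ?_ ?_ ?_ ?_ ?_ ?_ ?_ ?_ ?_
  · exact mem_of_eq (hG0) (by ring)
  · exact mem_of_eq (a2 0) (by ring)
  · exact mem_of_eq (b1) (by ring)
  · exact mem_of_eq (a2 1) (by ring)
  · exact mem_of_eq (a0 0) (by ring)
  · exact mem_of_eq (b2) (by ring)
  · exact mem_of_eq (b3) (by ring)
  · exact mem_of_eq (a0 1) (by ring)
  · exact mem_of_eq (a0 2) (by ring)
  · exact mem_of_eq (hG2) (by ring)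

omit [CharZero K] in
theorem span32 : (homogeneousSubmodule (Fin 4) K 2 ≤ Submodule.span K
    (Set.range (fun ij : Fin 4 × Fin 4 => X ij.1 * pderiv ij.2 (X 0 * X 1)) ∪
      Set.range ![X 2 ^ 2, X 2 * X 3, X 3 ^ 2])) := by
  obtain ⟨S, hS⟩ : ∃ S, S = Submodule.span K
    (Set.range (fun ij : Fin 4 × Fin 4 => X ij.1 * pderiv ij.2 (X 0 * X 1 : MvPolynomial (Fin 4) K)) ∪
      Set.range ![X 2 ^ 2, X 2 * X 3, X 3 ^ 2]) :=
    ⟨_, rfl⟩
  rw [← hS]
  have hF : ∀ i j : Fin 4, (X i * pderiv j (X 0 * X 1) : MvPolynomial (Fin 4) K) ∈ S :=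
    fun i j => hS ▸ Submodule.subset_span (Or.inl ⟨(i, j), rfl⟩)
  have hG0 : (X 2 ^ 2 : MvPolynomial (Fin 4) K) ∈ S :=
    hS ▸ Submodule.subset_span (Or.inr ⟨0, rfl⟩)
  have hG1 : (X 2 * X 3 : MvPolynomial (Fin 4) K) ∈ S :=
    hS ▸ Submodule.subset_span (Or.inr ⟨1, rfl⟩)
  have hG2 : (X 3 ^ 2 : MvPolynomial (Fin 4) K) ∈ S :=
    hS ▸ Submodule.subset_span (Or.inr ⟨2, rfl⟩)
  have d0 : pderiv 0 (X 0 * X 1 : MvPolynomial (Fin 4) K) = X 1 := by
    simp [pderiv_X]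
  have d1 : pderiv 1 (X 0 * X 1 : MvPolynomial (Fin 4) K) = X 0 := by
    simp [pderiv_X]
  have a1 : ∀ i : Fin 4, (X i * X 1 : MvPolynomial (Fin 4) K) ∈ S := by
    intro i
    have := hF i 0
    rwa [d0] at this
  have a0 : ∀ i : Fin 4, (X i * X 0 : MvPolynomial (Fin 4) K) ∈ S := by
    intro i
    have := hF i 1
    rwa [d1] at this
  apply span4
  refine cases42 (fun a b c e => _) ?_ ?_ ?_ ?_ ?_ ?_ ?_ ?_ ?_ ?_
  · exact mem_of_eq (a0 0) (by ring)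
  · exact mem_of_eq (a1 0) (by ring)
  · exact mem_of_eq (a0 2) (by ring)
  · exact mem_of_eq (a0 3) (by ring)
  · exact mem_of_eq (a1 1) (by ring)
  · exact mem_of_eq (a1 2) (by ring)
  · exact mem_of_eq (a1 3) (by ring)
  · exact mem_of_eq (hG0) (by ring)
  · exact mem_of_eq (hG1) (by ring)
  · exact mem_of_eq (hG2) (by ring)

theorem p_SPAN : P_SPAN := ⟨span22, span23, span32⟩

end

end Pool.Agent.W2helper19.SD
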