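import Pool.Agent.W2helper9.SD.Stm

/-!
# Project SD, pieces D2 and D6
-/

set_option autoImplicit false

open MvPolynomial

namespace Pool.Agent.W2helper19.SD

open Pool.Agent.W2helper9.SD

noncomputable section

/-! ### extension of vanishing along a coordinate -/

lemma ext_line {σ : Type} [DecidableEq σ] (p : MvPolynomial σ Kb) (x : σ → Kb) (i : σ)
    (S : Set Kb) (hS : S.Infinite) (h : ∀ s ∈ S, eval (Function.update x i s) p = 0) (y : Kb) :
    eval (Function.update x i y) p = 0 := by
  let f : σ → Polynomial Kb := fun j => if j = i then Polynomial.X else Polynomial.C (x j)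
  let q : Polynomial Kb := aeval f p
  have hq : ∀ s, q.eval s = eval (Function.update x i s) p := by
    intro s
    have h1 : (Polynomial.evalRingHom s).comp (aeval f : MvPolynomial σ Kb →ₐ[Kb] _).toRingHom =
        eval (Function.update x i s) := by
      apply MvPolynomial.ringHom_ext
      · intro r
        simp
      · intro j
        simp only [RingHom.comp_apply, AlgHom.toRingHom_eq_coe, RingHom.coe_coe, aeval_X, f,
          eval_X]
        by_cases hj : j = i
        · subst hj
          simp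
        · simp [hj]
    exact congrArg (fun g => g p) h1
  have hq0 : q = 0 := by
    apply Polynomial.eq_zero_of_infinite_isRoot
    refine hS.mono ?_
    intro s hs
    show q.IsRoot s
    rw [Polynomial.IsRoot, hq, h s hs]
  rw [← hq, hq0, Polynomial.eval_zero]

/-! ### elements -/

lemma io_int (n : ℤ) : io (n : Z2) = (n : Kb) := map_intCast io n

lemma io_two_pow (n : ℕ) : io ((2 : Z2) ^ n) = (2 : Kb) ^ n := by
  rw [map_pow, map_ofNat]

lemma isUnit_twoZ : IsUnit (2 : Z2) := by
  have h := IsLocalization.Away.algebraMap_isUnit (S := Z2) (2 : ℤ)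
  simpa using h

lemma inf_int : (Set.range (fun n : ℤ => (n : Kb))).Infinite :=
  Set.infinite_range_of_injective Int.cast_injective

lemma pow2_inj : Function.Injective (fun n : ℕ => (2 : Kb) ^ n) := by
  intro a b h
  have h1 : ((2 ^ a : ℕ) : Kb) = ((2 ^ b : ℕ) : Kb) := by
    push_cast
    exact h
  have h2 : 2 ^ a = 2 ^ b := Nat.cast_injective h1
  exact Nat.pow_right_injective le_rfl h2

lemma inf_pow2 : (Set.range (fun n : ℕ => (2 : Kb) ^ n)).Infinite :=
  Set.infinite_range_of_injective pow2_inj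

/-! ### D2 -/

theorem p_D2 : P_D2 := by
  intro p hp
  -- the points
  have h1 : ∀ (v w : ℤ) (e u : ℕ),
      eval ![(v : Kb) + w, (v : Kb) * w + 2 ^ e, 2 ^ u, 2 ^ u * v] p = 0 := by
    intro v w e u
    have hmem : Cop2 ![(v : Z2) + w, (v : Z2) * w + 2 ^ e, 2 ^ u, 2 ^ u * v] := by
      intro κ _ _ φ s t h3 h4
      have h2 : φ (2 : Z2) ≠ 0 := (isUnit_twoZ.map φ).ne_zero
      simp only [Matrix.cons_val_zero, Matrix.cons_val_one, Matrix.cons_val, map_add, map_mul,
        map_pow] at h3 h4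
      have h5 : φ 2 ^ u * (s * (t + φ (v : Z2) * s)) = 0 := by linear_combination h4
      rcases mul_eq_zero.1 h5 with h6 | h6
      · exact absurd h6 (pow_ne_zero _ h2)
      rcases mul_eq_zero.1 h6 with h7 | h7
      · subst h7
        refine ⟨rfl, ?_⟩
        have : t ^ 2 = 0 := by linear_combination h3
        exact pow_eq_zero_iff (two_ne_zero) |>.1 this
      · have h8 : φ 2 ^ e * s ^ 2 = 0 := by
          linear_combination h3 - (t + φ (w : Z2) * s) * h7
        have h9 : s = 0 := by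
          rcases mul_eq_zero.1 h8 with h10 | h10
          · exact absurd h10 (pow_ne_zero _ h2)
          · exact pow_eq_zero_iff (two_ne_zero) |>.1 h10
        refine ⟨h9, ?_⟩
        rw [h9] at h7
        simpa using h7
    have h2 := hp _ hmem
    have h3 : (fun i => io ((![(v : Z2) + w, (v : Z2) * w + 2 ^ e, 2 ^ u, 2 ^ u * v] : Fin 4 → Z2) i)) =
        ![(v : Kb) + w, (v : Kb) * w + 2 ^ e, 2 ^ u, 2 ^ u * v] := by
      funext i
      fin_cases i <;> simp [map_add, map_mul, map_pow, map_ofNat]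
    rwa [h3] at h2
  let f : Fin 4 → MvPolynomial (Fin 4) Kb := ![X 0 + X 1, X 0 * X 1 + X 2, X 3, X 3 * X 0]
  have hq : ∀ x : Fin 4 → Kb, eval x (bind₁ f p) =
      eval ![x 0 + x 1, x 0 * x 1 + x 2, x 3, x 3 * x 0] p := by
    intro x
    have h2 : eval x (bind₁ f p) = eval (fun i => eval x (f i)) p := by
      rw [← coe_aeval_eq_eval, ← coe_aeval_eq_eval]
      simp only [RingHom.coe_coe]
      rw [aeval_bind₁]
    rw [h2]
    congr 1
    congr 1
    funext i
    fin_cases i <;> simp [f]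
  have hq0 : bind₁ f p = 0 := by
    apply MvPolynomial.funext_set
      (![Set.range (fun n : ℤ => (n : Kb)), Set.range (fun n : ℤ => (n : Kb)),
        Set.range (fun n : ℕ => (2 : Kb) ^ n), Set.range (fun n : ℕ => (2 : Kb) ^ n)] :
          Fin 4 → Set Kb)
    · intro i
      fin_cases i
      · exact inf_int
      · exact inf_int
      · exact inf_pow2
      · exact inf_pow2
    · intro x hx
      obtain ⟨v, hv⟩ := hx 0 trivial
      obtain ⟨w, hw⟩ := hx 1 trivial
      obtain ⟨e, he⟩ := hx 2 trivial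
      obtain ⟨u, hu⟩ := hx 3 trivial
      simp only at hv hw he hu
      rw [hq, ← hv, ← hw, ← he, ← hu, h1, map_zero]
  -- everything with third coordinate `≠ 0`
  have h4 : ∀ x : Fin 4 → Kb, x 2 ≠ 0 → eval x p = 0 := by
    intro x hx
    have h5 := hq ![x 3 / x 2, x 0 - x 3 / x 2, x 1 - x 3 / x 2 * (x 0 - x 3 / x 2), x 2]
    rw [hq0, map_zero] at h5
    rw [h5]
    congr 1
    congr 1
    funext i
    fin_cases i
    · simp
    · simp
    · simp
    · simp
      field_simp
  apply MvPolynomial.funext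
  intro x
  rw [map_zero]
  have h5 := ext_line p x 2 {0}ᶜ (Set.Finite.infinite_compl (Set.finite_singleton 0)) (by
    intro s hs
    apply h4
    rw [Function.update_self]
    exact hs) (x 2)
  rwa [Function.update_eq_self] at h5

/-! ### D6 -/

/-- half -/
def hf : Z2 := (isUnit_twoZ.unit⁻¹ : Z2ˣ)

lemma two_hf : (2 : Z2) * hf = 1 := isUnit_twoZ.mul_val_inv

lemma io_hf : io hf = (2 : Kb)⁻¹ := by
  have h1 := congrArg io two_hf
  rw [map_mul, map_ofNat, map_one] at h1
  exact eq_inv_of_mul_eq_one_right h1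

/-- the integer `(1 - 2 ^ (φ(c) j)) / c` -/
def kk (c : ℕ) (j : ℕ) : ℤ := (1 - 2 ^ (Nat.totient c * j)) / c

lemma kk_spec (c : ℕ) (hc : Odd c) (j : ℕ) : (c : ℤ) * kk c j = 1 - 2 ^ (Nat.totient c * j) := by
  unfold kk
  apply Int.mul_ediv_cancel'
  have h1 : 2 ^ Nat.totient c ≡ 1 [MOD c] :=
    Nat.ModEq.pow_totient ((Nat.coprime_two_left).2 hc)
  have h2 : 2 ^ (Nat.totient c * j) ≡ 1 [MOD c] := by
    rw [pow_mul]
    simpa using h1.pow j
  have h3 := (Nat.modEq_iff_dvd.1 h2)
  push_cast at h3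
  exact h3

lemma kk_inj (c : ℕ) (hc : Odd c) : Function.Injective (kk c) := by
  intro a b h
  have h1 := kk_spec c hc a
  have h2 := kk_spec c hc b
  rw [h, h2] at h1
  have h3 : (2 : ℤ) ^ (Nat.totient c * b) = 2 ^ (Nat.totient c * a) := by linarith
  have h4 : (2 : ℕ) ^ (Nat.totient c * b) = 2 ^ (Nat.totient c * a) := by exact_mod_cast h3
  have h5 := Nat.pow_right_injective le_rfl h4
  have h6 : 0 < Nat.totient c := Nat.totient_pos.2 hc.pos
  exact (Nat.eq_of_mul_eq_mul_left h6 h5).symm

/-- the point: `A = 2 ^ m`, `B`, `c` odd, `b = 2 ^ n` -/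
def pt (m B c n i j : ℕ) : Fin 6 → Z2 :=
  ![2 ^ m, B * hf ^ n + 2 ^ m * 2 ^ n * kk B j, c, B, 2 ^ n, B * c * hf ^ m + 2 ^ m * kk c i]

lemma pt_mem (m B c n i j : ℕ) (hB : Odd B) (hc : Odd c) :
    Cop9 ![pt m B c n i j 0, pt m B c n i j 1, pt m B c n i j 2, 0, 0, 0, pt m B c n i j 3,
      pt m B c n i j 4, pt m B c n i j 5] := by
  intro κ _ _ φ y z w h1 h2 h3
  have h0 : φ (2 : Z2) ≠ 0 := (isUnit_twoZ.map φ).ne_zero
  have hh : φ 2 * φ hf = 1 := by rw [← map_mul, two_hf, map_one]
  have hhp : ∀ n : ℕ, φ 2 ^ n * φ hf ^ n = 1 := fun n => by rw [← mul_pow, hh, one_pow]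
  have k1 : φ (c : Z2) * φ ((kk c i : ℤ) : Z2) = 1 - φ 2 ^ (Nat.totient c * i) := by
    have := congrArg (fun x : ℤ => φ (x : Z2)) (kk_spec c hc i)
    simpa using this
  have k2 : φ (B : Z2) * φ ((kk B j : ℤ) : Z2) = 1 - φ 2 ^ (Nat.totient B * j) := by
    have := congrArg (fun x : ℤ => φ (x : Z2)) (kk_spec B hB j)
    simpa using this
  simp only [pt, Matrix.cons_val_zero, Matrix.cons_val_one, Matrix.cons_val, map_add, map_mul,
    map_pow, map_zero, zero_mul, add_zero, mul_zero] at h1 h2 h3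
  set P := φ 2 ^ m with hP
  set Q := φ 2 ^ n with hQ
  set P' := φ hf ^ m with hP'
  set Q' := φ hf ^ n with hQ'
  have hPP : P * P' = 1 := hhp m
  have hQQ : Q * Q' = 1 := hhp n
  have hP0 : P ≠ 0 := pow_ne_zero _ h0
  have hQ0 : Q ≠ 0 := pow_ne_zero _ h0
  set c' := φ (c : Z2)
  set B' := φ (B : Z2)
  set k := φ ((kk c i : ℤ) : Z2)
  set l := φ ((kk B j : ℤ) : Z2)
  rcases mul_eq_zero.1 h2 with hz | hw
  · -- `z = 0`
    rw [hz] at h1 h3
    by_cases hy : y = 0
    · rw [hy] at h3
      refine ⟨hy, hz, ?_⟩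
      have : w ^ 2 = 0 := by linear_combination h3
      exact pow_eq_zero_iff (two_ne_zero) |>.1 this
    · exfalso
      have e1 : P * y + c' * w = 0 := by
        have : y * (P * y + c' * w) = 0 := by linear_combination h1
        exact (mul_eq_zero.1 this).resolve_left hy
      have e2 : P ^ 2 * φ 2 ^ (Nat.totient c * i) * y ^ 2 = 0 := by
        linear_combination (c' ^ 2) * h3 - (c' * w - P * y + c' * y * (B' * c' * P' + P * k)) * e1
          + y ^ 2 * P ^ 2 * k1 + y ^ 2 * B' * c' ^ 2 * hPP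
      rcases mul_eq_zero.1 e2 with e3 | e3
      · rcases mul_eq_zero.1 e3 with e4 | e4
        · exact pow_ne_zero _ hP0 e4
        · exact pow_ne_zero _ h0 e4
      · exact hy (pow_eq_zero_iff (two_ne_zero) |>.1 e3)
  · -- `w = 0`
    rw [hw] at h1 h3
    by_cases hy : y = 0
    · rw [hy] at h1
      refine ⟨hy, ?_, hw⟩
      have : z ^ 2 = 0 := by linear_combination h1
      exact pow_eq_zero_iff (two_ne_zero) |>.1 this
    · exfalso
      have e1 : B' * y + Q * z = 0 := by
        have : y * (B' * y + Q * z) = 0 := by linear_combination h3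
        exact (mul_eq_zero.1 this).resolve_left hy
      have e2 : P * Q ^ 2 * φ 2 ^ (Nat.totient B * j) * y ^ 2 = 0 := by
        linear_combination (Q ^ 2) * h1 - (Q * z - B' * y + Q * y * (B' * Q' + P * Q * l)) * e1
          + y ^ 2 * P * Q ^ 2 * k2 + y ^ 2 * B' ^ 2 * hQQ
      rcases mul_eq_zero.1 e2 with e3 | e3
      · rcases mul_eq_zero.1 e3 with e4 | e4
        · rcases mul_eq_zero.1 e4 with e5 | e5
          · exact hP0 e5
          · exact pow_ne_zero _ hQ0 e5
        · exact pow_ne_zero _ h0 e4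
      · exact hy (pow_eq_zero_iff (two_ne_zero) |>.1 e3)

lemma inf_odd : (Set.range (fun n : ℕ => ((2 * n + 1 : ℕ) : Kb))).Infinite := by
  apply Set.infinite_range_of_injective
  intro a b h
  have := Nat.cast_injective h
  omega

theorem p_D6 : P_D6 := by
  intro p hp
  -- vanishing at the points
  have h1 : ∀ m B c n i j : ℕ, Odd B → Odd c → eval ![(2 : Kb) ^ m,
      B * (2 : Kb)⁻¹ ^ n + 2 ^ m * 2 ^ n * kk B j, c, B, 2 ^ n,
      B * c * (2 : Kb)⁻¹ ^ m + 2 ^ m * kk c i] p = 0 := by
    intro m B c n i j hB hc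
    have h2 := hp (pt m B c n i j) (pt_mem m B c n i j hB hc)
    have h3 : (fun t => io (pt m B c n i j t)) = ![(2 : Kb) ^ m,
        B * (2 : Kb)⁻¹ ^ n + 2 ^ m * 2 ^ n * kk B j, c, B, 2 ^ n,
        B * c * (2 : Kb)⁻¹ ^ m + 2 ^ m * kk c i] := by
      funext t
      fin_cases t <;> simp [pt, map_add, map_mul, map_pow, map_ofNat, io_hf]
    rwa [h3] at h2
  -- all values of the second coordinate
  have h2 : ∀ m B c n i : ℕ, ∀ y : Kb, Odd B → Odd c → eval ![(2 : Kb) ^ m,
      y, c, B, 2 ^ n, B * c * (2 : Kb)⁻¹ ^ m + 2 ^ m * kk c i] p = 0 := by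
    intro m B c n i y hB hc
    have h3 := ext_line p ![(2 : Kb) ^ m, 0, c, B, 2 ^ n,
      B * c * (2 : Kb)⁻¹ ^ m + 2 ^ m * kk c i] 1
      (Set.range fun j : ℕ => B * (2 : Kb)⁻¹ ^ n + 2 ^ m * 2 ^ n * kk B j)
      (by
        apply Set.infinite_range_of_injective
        intro a b h
        have h4 : ((2 : Kb) ^ m * 2 ^ n) * (kk B a : Kb) = (2 ^ m * 2 ^ n) * (kk B b : Kb) :=
          add_left_cancel h
        have h5 := mul_left_cancel₀ (mul_ne_zero (pow_ne_zero _ two_ne_zero)
          (pow_ne_zero _ two_ne_zero)) h4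
        exact kk_inj B hB (Int.cast_injective h5))
      (by
        rintro s ⟨j, rfl⟩
        have h4 := h1 m B c n i j hB hc
        convert h4 using 3
        funext t
        fin_cases t <;> simp [Function.update]) y
    convert h3 using 3
    funext t
    fin_cases t <;> simp [Function.update]
  have h3 : ∀ m B c n : ℕ, ∀ y x : Kb, Odd B → Odd c → eval ![(2 : Kb) ^ m,
      y, c, B, 2 ^ n, x] p = 0 := by
    intro m B c n y x hB hc
    have h3 := ext_line p ![(2 : Kb) ^ m, y, c, B, 2 ^ n, 0] 5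
      (Set.range fun i : ℕ => B * c * (2 : Kb)⁻¹ ^ m + 2 ^ m * kk c i)
      (by
        apply Set.infinite_range_of_injective
        intro a b h
        have h4 : (2 : Kb) ^ m * (kk c a : Kb) = 2 ^ m * (kk c b : Kb) :=
          add_left_cancel h
        have h5 := mul_left_cancel₀ (pow_ne_zero _ two_ne_zero) h4
        exact kk_inj c hc (Int.cast_injective h5))
      (by
        rintro s ⟨i, rfl⟩
        have h4 := h2 m B c n i y hB hc
        convert h4 using 3
        funext t
        fin_cases t <;> simp [Function.update]) x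
    convert h3 using 3
    funext t
    fin_cases t <;> simp [Function.update]
  apply MvPolynomial.funext_set
    (![Set.range (fun n : ℕ => (2 : Kb) ^ n), Set.univ,
      Set.range (fun n : ℕ => ((2 * n + 1 : ℕ) : Kb)),
      Set.range (fun n : ℕ => ((2 * n + 1 : ℕ) : Kb)),
      Set.range (fun n : ℕ => (2 : Kb) ^ n), Set.univ] : Fin 6 → Set Kb)
  · intro i
    fin_cases i
    · exact inf_pow2
    · exact Set.infinite_univ
    · exact inf_odd
    · exact inf_odd
    · exact inf_pow2
    · exact Set.infinite_univ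
  · intro x hx
    obtain ⟨m, hm⟩ := hx 0 trivial
    obtain ⟨c, hc⟩ := hx 2 trivial
    obtain ⟨B, hB⟩ := hx 3 trivial
    obtain ⟨n, hn⟩ := hx 4 trivial
    simp only at hm hc hB hn
    have h4 := h3 m (2 * B + 1) (2 * c + 1) n (x 1) (x 5) ⟨B, rfl⟩ ⟨c, rfl⟩
    rw [map_zero, ← h4]
    congr 1
    congr 1
    funext t
    fin_cases t
    · exact hm.symm
    · rfl
    · exact hc.symm
    · exact hB.symm
    · exact hn.symm
    · rfl

end

end Pool.Agent.W2helper19.SD
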